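import Mathlib

namespace Pool.Agent.Results.MP_4a3f67_an.Six

open Matrix

/-- The quadratic form `xᵀ A x`. -/
def q {n : ℕ} (A : Matrix (Fin n) (Fin n) ℝ) (x : EuclideanSpace ℝ (Fin n)) : ℝ :=
  x.ofLp ⬝ᵥ A *ᵥ x.ofLp

/-- Feasible set of (QQ2). -/
def Feas {n : ℕ} (A₁ A₂ : Matrix (Fin n) (Fin n) ℝ) : Set (EuclideanSpace ℝ (Fin n)) :=
  {x | q A₁ x = 1 ∧ q A₂ x ≤ 1}

/-- Strict local non-global minimizers of (QQ2). -/
def SLNG {n : ℕ} (A₀ A₁ A₂ : Matrix (Fin n) (Fin n) ℝ) : Set (EuclideanSpace ℝ (Fin n)) :=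
  {y | y ∈ Feas A₁ A₂ ∧
    (∃ ε > 0, ∀ x ∈ Feas A₁ A₂, 0 < ‖x - y‖ → ‖x - y‖ < ε → q A₀ y < q A₀ x) ∧
    ∃ x ∈ Feas A₁ A₂, q A₀ x < q A₀ y}

def A0 : Matrix (Fin 4) (Fin 4) ℝ := !![-2, -4, 2, 0; -4, 0, -1, 0; 2, -1, 1, -1; 0, 0, -1, 2]
def A1 : Matrix (Fin 4) (Fin 4) ℝ := !![1, -2, 0, 0; -2, 1, 1, -1; 0, 1, 1, 1; 0, -1, 1, -3]
def A2 : Matrix (Fin 4) (Fin 4) ℝ := !![1, 2, -1, 0; 2, 1, 2, -1; -1, 2, 1, 2; 0, -1, 2, 0]

lemma core (h bx By N a β : ℝ) (h1 : N / 10 ≤ h + 10 * bx ^ 2) (h2 : 2 * a * bx + By ≤ 0)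
    (ha : 1 / 4 ≤ a ^ 2) (ha' : |a| ≤ 2) (hB : |By| ≤ 20 * N) (hN : N ≤ 1 / 10 ^ 6)
    (hb : |bx| ≤ 1 / 200) (hβ : 1 ≤ β) (hN0 : 0 < N) : 0 < h - β * (2 * a * bx + By) := by
  set B := 2 * a * bx + By with hBdef
  have e1 : bx ^ 2 ≤ 2 * B ^ 2 + 2 * By ^ 2 := by
    have : (B - By) ^ 2 = 4 * a ^ 2 * bx ^ 2 := by rw [hBdef]; ring
    nlinarith [sq_nonneg (B + By), sq_nonneg bx]
  have e2 : By ^ 2 ≤ 400 * N ^ 2 := by
    rw [← sq_abs]; nlinarith [abs_nonneg By]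
  have e3 : -B ≤ 1 / 20 := by
    have h3 : |a * bx| ≤ 2 * (1 / 200) := by
      rw [abs_mul]; exact mul_le_mul ha' hb (abs_nonneg _) (by norm_num)
    have := neg_abs_le (a * bx)
    have := neg_abs_le By
    nlinarith
  have e4 : 20 * B ^ 2 ≤ -B := by nlinarith
  have e5 : -B ≤ β * -B := by nlinarith
  nlinarith

lemma qA0 (x : EuclideanSpace ℝ (Fin 4)) : q A0 x = -2 * x 0 ^ 2 - 8 * x 0 * x 1 + 4 * x 0 * x 2
    - 2 * x 1 * x 2 + x 2 ^ 2 - 2 * x 2 * x 3 + 2 * x 3 ^ 2 := by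
  simp [q, A0, dotProduct, mulVec, Fin.sum_univ_four]; ring

lemma qA1 (x : EuclideanSpace ℝ (Fin 4)) : q A1 x = x 0 ^ 2 - 4 * x 0 * x 1 + x 1 ^ 2
    + 2 * x 1 * x 2 - 2 * x 1 * x 3 + x 2 ^ 2 + 2 * x 2 * x 3 - 3 * x 3 ^ 2 := by
  simp [q, A1, dotProduct, mulVec, Fin.sum_univ_four]; ring

lemma qA2 (x : EuclideanSpace ℝ (Fin 4)) : q A2 x = x 0 ^ 2 + 4 * x 0 * x 1 - 2 * x 0 * x 2
    + x 1 ^ 2 + 4 * x 1 * x 2 - 2 * x 1 * x 3 + x 2 ^ 2 + 4 * x 2 * x 3 := by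
  simp [q, A2, dotProduct, mulVec, Fin.sum_univ_four]; ring

lemma aux (a s b c d : ℝ) (hs : s = 1 ∨ s = -1) (ha : |a - s| < 1 / 10000)
    (hb : |b| < 1 / 10000) (hc : |c| < 1 / 10000) (hd : |d| < 1 / 10000) :
    1 / 4 ≤ a ^ 2 ∧ |a| ≤ 2 ∧ b ^ 2 + c ^ 2 + d ^ 2 ≤ 1 / 10 ^ 6 ∧ (a ^ 2 = 1 → a = s) := by
  rw [abs_lt] at *
  refine ⟨?_, ?_, ?_, ?_⟩
  · rcases hs with rfl | rfl <;> nlinarith
  · rw [abs_le]; rcases hs with rfl | rfl <;> constructor <;> linarith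
  · nlinarith
  · intro h; rcases hs with rfl | rfl <;> nlinarith

lemma nz (b c d : ℝ) (h : ¬ 0 < b ^ 2 + c ^ 2 + d ^ 2) : b = 0 ∧ c = 0 ∧ d = 0 := by
  refine ⟨?_, ?_, ?_⟩ <;> nlinarith [sq_nonneg b, sq_nonneg c, sq_nonneg d]

lemma p0 (b c d : ℝ) : (b ^ 2 + c ^ 2 + d ^ 2) / 10 ≤ 2 * b ^ 2 + 6 * b * c - 4 * b * d
    + 3 * c ^ 2 + 6 * c * d + 2 * d ^ 2 + 10 * (4 * b - c) ^ 2 := by
  nlinarith [sq_nonneg (b - 185 / 809 * c - 10 / 809 * d),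
    sq_nonneg (c + 10285 / 17551 * d), sq_nonneg d, sq_nonneg b, sq_nonneg c]

lemma p1 (b c d : ℝ) : (b ^ 2 + c ^ 2 + d ^ 2) / 10 ≤ -2 * b ^ 2 + 2 * b * c + c ^ 2 + 5 * d ^ 2
    + 10 * (4 * b + c) ^ 2 := by
  nlinarith [sq_nonneg (b + 205 / 789 * c), sq_nonneg c, sq_nonneg d, sq_nonneg b]

lemma p2 (b c d : ℝ) : (b ^ 2 + c ^ 2 + d ^ 2) / 10 ≤ -3 * b ^ 2 + 12 * b * c - c ^ 2 + 2 * c * d
    + 11 * d ^ 2 + 10 * (-b + c + d) ^ 2 := by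
  nlinarith [sq_nonneg (b - 8 / 13 * c - 20 / 13 * d),
    sq_nonneg (c + 126 / 157 * d), sq_nonneg d, sq_nonneg b, sq_nonneg c]

lemma r0 (b c d : ℝ) : |2 * b * c + 2 * c * d + 3 * d ^ 2| ≤ 20 * (b ^ 2 + c ^ 2 + d ^ 2) := by
  rw [abs_le]; constructor <;> nlinarith [sq_nonneg (b - c), sq_nonneg (b + c),
    sq_nonneg (c - d), sq_nonneg (c + d)]

lemma r1 (b c d : ℝ) : |-2 * b * c + 2 * c * d + 3 * d ^ 2| ≤ 20 * (b ^ 2 + c ^ 2 + d ^ 2) := by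
  rw [abs_le]; constructor <;> nlinarith [sq_nonneg (b - c), sq_nonneg (b + c),
    sq_nonneg (c - d), sq_nonneg (c + d)]

lemma r2 (b c d : ℝ) : |8 * b * c + 3 * d ^ 2| ≤ 20 * (b ^ 2 + c ^ 2 + d ^ 2) := by
  rw [abs_le]; constructor <;> nlinarith [sq_nonneg (b - c), sq_nonneg (b + c), sq_nonneg d]

lemma mem (i : Fin 4) (hi : i ≠ 3) (s : ℝ) (hs : s = 1 ∨ s = -1) :
    EuclideanSpace.single i s ∈ SLNG A0 A1 A2 := by
  have hs2 : s ^ 2 = 1 := by rcases hs with rfl | rfl <;> norm_num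
  refine ⟨?_, ⟨1 / 10000, by norm_num, ?_⟩, ⟨!₂[-4, 0, -1, 2], ?_, ?_⟩⟩
  · fin_cases i <;> simp [Feas, qA1, qA2, hs2] at hi ⊢
  · rintro x ⟨h1, h2⟩ h0 hε
    have hc : ∀ j, |x j - EuclideanSpace.single i s j| < 1 / 10000 := fun j =>
      lt_of_le_of_lt (by simpa using PiLp.norm_apply_le (x - EuclideanSpace.single i s) j) hε
    have hne : ¬ ∀ j, x j = EuclideanSpace.single i s j := fun h => by
      have : x = EuclideanSpace.single i s := by ext j; exact h j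
      simp [this] at h0
    rw [qA1] at h1
    rw [qA2] at h2
    rw [qA0, qA0]
    have c0 := hc 0
    have c1 := hc 1
    have c2 := hc 2
    have c3 := hc 3
    simp only [Fin.forall_fin_succ] at hne
    fin_cases i
    · simp at c0 c1 c2 c3 hne ⊢
      rw [← one_div] at c0 c1 c2 c3
      obtain ⟨u1, u2, u3, u4⟩ := aux _ _ _ _ _ hs c0 c1 c2 c3
      have hN : 0 < x 1 ^ 2 + x 2 ^ 2 + x 3 ^ 2 := by
        by_contra hh
        obtain ⟨e1, e2, e3⟩ := nz _ _ _ hh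
        exact hne (u4 (by simpa [e1, e2, e3] using h1)) e1 e2 e3
      have := core _ _ _ _ (x 0) 2 (p0 (x 1) (x 2) (x 3)) (by linarith) u1 u2 (r0 _ _ _) u3
        (by rw [abs_lt] at c1 c2; rw [abs_le]; constructor <;> linarith) (by norm_num) hN
      linarith
    · simp at c0 c1 c2 c3 hne ⊢
      rw [← one_div] at c0 c1 c2 c3
      obtain ⟨u1, u2, u3, u4⟩ := aux _ _ _ _ _ hs c1 c0 c2 c3
      have hN : 0 < x 0 ^ 2 + x 2 ^ 2 + x 3 ^ 2 := by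
        by_contra hh
        obtain ⟨e1, e2, e3⟩ := nz _ _ _ hh
        exact hne e1 (u4 (by simpa [e1, e2, e3] using h1)) e2 e3
      have := core _ _ _ _ (x 1) 1 (p1 (x 0) (x 2) (x 3)) (by linarith) u1 u2 (r1 _ _ _) u3
        (by rw [abs_lt] at c0 c2; rw [abs_le]; constructor <;> linarith) (by norm_num) hN
      linarith
    · simp at c0 c1 c2 c3 hne ⊢
      rw [← one_div] at c0 c1 c2 c3
      obtain ⟨u1, u2, u3, u4⟩ := aux _ _ _ _ _ hs c2 c0 c1 c3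
      have hN : 0 < x 0 ^ 2 + x 1 ^ 2 + x 3 ^ 2 := by
        by_contra hh
        obtain ⟨e1, e2, e3⟩ := nz _ _ _ hh
        exact hne e1 e2 (u4 (by simpa [e1, e2, e3] using h1)) e3
      have := core _ _ _ _ (x 2) 2 (p2 (x 0) (x 1) (x 3)) (by linarith) u1 u2 (r2 _ _ _) u3
        (by rw [abs_lt] at c0 c1 c3; rw [abs_le]; constructor <;> linarith) (by norm_num) hN
      linarith
    · simp at hi
  · constructor
    · rw [qA1]; simp; norm_num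
    · rw [qA2]; simp; norm_num
  · rw [qA0, qA0]
    fin_cases i <;> simp [hs2] at hi ⊢ <;> norm_num

theorem result : ∃ A₀ A₁ A₂ : Matrix (Fin 4) (Fin 4) ℝ, A₀.IsSymm ∧ A₁.IsSymm ∧ A₂.IsSymm ∧
    6 ≤ (SLNG A₀ A₁ A₂).encard := by
  refine ⟨A0, A1, A2, ?_, ?_, ?_, ?_⟩
  · ext i j; fin_cases i <;> fin_cases j <;> simp [A0]
  · ext i j; fin_cases i <;> fin_cases j <;> simp [A1]
  · ext i j; fin_cases i <;> fin_cases j <;> simp [A2]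
  · let f : Fin 3 × Bool → EuclideanSpace ℝ (Fin 4) := fun p =>
      EuclideanSpace.single p.1.castSucc (if p.2 then 1 else -1)
    have hf : Function.Injective f := by
      rintro ⟨i, s⟩ ⟨j, t⟩ h
      have := congrArg (fun v : EuclideanSpace ℝ (Fin 4) => v i.castSucc) h
      fin_cases i <;> fin_cases j <;> cases s <;> cases t <;> simp [f] at this ⊢ <;> norm_num at this
    have hsub : Set.range f ⊆ SLNG A0 A1 A2 := by
      rintro _ ⟨⟨i, s⟩, rfl⟩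
      exact mem _ (Fin.castSucc_lt_last i).ne _ (by cases s <;> simp)
    refine le_trans (le_of_eq ?_) (Set.encard_le_encard hsub)
    rw [← Set.image_univ, hf.encard_image]
    simp [Set.encard_univ]

end Pool.Agent.Results.MP_4a3f67_an.Six
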